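import Pool.Agent.AT8.Stmts4

/-!
# Squad AT8, row CPR: coprime action on an abelian `ℓ`-group
-/

set_option autoImplicit false

open scoped BigOperators

noncomputable section

namespace Pool.Agent.PP.T8.H92

/-- CPR -/
theorem cpr : CprStmt := by
  intro ℓ hℓ V _ _ a ha S hS
  classical
  have : Finite (MulAut V) := Finite.of_injective (fun g : MulAut V => (g : V → V))
    (fun g h hgh => MulEquiv.ext (fun x => congrFun hgh x))
  have := Fintype.ofFinite S
  have hexp : ∀ v : V, v ^ ℓ ^ a = 1 := by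
    intro v
    rw [← ha]
    exact Monoid.pow_exponent_eq_one v
  obtain ⟨P, hP⟩ : ∃ P : V →* V, ∀ v, P v = ∏ s : S, (s : MulAut V) v := by
    refine ⟨{ toFun := fun v => ∏ s : S, (s : MulAut V) v, map_one' := ?_, map_mul' := ?_ },
      fun v => rfl⟩
    · simp
    · intro v w
      simp [Finset.prod_mul_distrib]
  have hP1 : ∀ v, ∀ s ∈ S, s (P v) = P v := by
    intro v s hs
    rw [hP, map_prod]
    refine Fintype.prod_equiv (Equiv.mulLeft (⟨s, hs⟩ : S)) _ _ fun t => ?_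
    rfl
  have hP2 : ∀ v, ∀ s ∈ S, P (s v) = P v := by
    intro v s hs
    rw [hP, hP]
    refine Fintype.prod_equiv (Equiv.mulRight (⟨s, hs⟩ : S)) _ _ fun t => ?_
    rfl
  -- the inverse of the order
  obtain ⟨m', hm'⟩ : ∃ m' : ℕ, ∀ v : V, (v ^ Nat.card S) ^ m' = v := by
    have hco : Nat.Coprime (Nat.card S) (ℓ ^ a) :=
      (((Nat.Prime.coprime_iff_not_dvd hℓ.out).2 hS).symm).pow_right a
    obtain ⟨m', hm'⟩ : ∃ m' : ℕ, Nat.card S * m' ≡ 1 [MOD ℓ ^ a] := by
      rcases Nat.eq_zero_or_pos a with h0 | h0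
      · refine ⟨0, ?_⟩
        rw [h0, pow_zero]
        exact Nat.modEq_one
      · have hk : 1 < ℓ ^ a := Nat.one_lt_pow h0.ne' hℓ.out.one_lt
        obtain ⟨m', -, h⟩ := Nat.exists_mul_mod_eq_one_of_coprime hco hk
        refine ⟨m', ?_⟩
        unfold Nat.ModEq
        rw [h, Nat.mod_eq_of_lt hk]
    refine ⟨m', fun v => ?_⟩
    rw [← pow_mul]
    have h1 : Nat.card S * m' ≡ 1 [MOD orderOf v] :=
      hm'.of_dvd (orderOf_dvd_of_pow_eq_one (hexp v))
    have h2 := pow_eq_pow_iff_modEq.2 h1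
    rwa [pow_one] at h2
  obtain ⟨π, hπ⟩ : ∃ π : V →* V, ∀ v, π v = P v ^ m' :=
    ⟨(powMonoidHom m').comp P, fun v => rfl⟩
  have h1 : ∀ v, ∀ s ∈ S, s (π v) = π v ∧ π (s v) = π v := by
    intro v s hs
    rw [hπ, hπ, map_pow, hP1 v s hs, hP2 v s hs]
    exact ⟨rfl, rfl⟩
  have h2 : ∀ v, (∀ s ∈ S, s v = v) → π v = v := by
    intro v hv
    have e : P v = v ^ Nat.card S := by
      rw [hP, Finset.prod_congr rfl (fun (s : S) _ => hv s s.2), Finset.prod_const,
        Finset.card_univ, Nat.card_eq_fintype_card]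
    rw [hπ, e, hm']
  have h3 : ∀ g : MulAut V, (∀ s ∈ S, g * s * g⁻¹ ∈ S) → ∀ v, g (π v) = π (g v) := by
    intro g hg v
    rw [hπ, hπ, map_pow]
    congr 1
    rw [hP, hP, map_prod]
    have hinj : Function.Injective (fun t : S => (⟨g * t * g⁻¹, hg t t.2⟩ : S)) := by
      intro t t' htt
      have := congrArg Subtype.val htt
      apply Subtype.ext
      exact mul_left_cancel (mul_right_cancel this)
    refine Fintype.prod_bijective _ (Finite.injective_iff_bijective.1 hinj) _ _ fun t => ?_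
    change g ((t : MulAut V) v) = (g * t * g⁻¹) (g v)
    rw [MulAut.mul_apply, MulAut.mul_apply, MulAut.inv_apply_self]
  have h4 : ∀ (n : ℕ) (v : V), (∀ s ∈ S, ∃ w, s v = v * w ^ n) → ∃ w, π v = v * w ^ n := by
    intro n v hv
    choose! w hw using hv
    refine ⟨(∏ s : S, w s) ^ m', ?_⟩
    have e : P v = v ^ Nat.card S * (∏ s : S, w s) ^ n := by
      rw [hP, Finset.prod_congr rfl (fun (s : S) _ => hw s s.2), Finset.prod_mul_distrib,
        Finset.prod_const, Finset.card_univ, Nat.card_eq_fintype_card, Finset.prod_pow]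
    rw [hπ, e, mul_pow, hm', ← pow_mul, ← pow_mul, mul_comm n m']
  refine ⟨⟨π, h1, h2, h3, h4⟩, ?_⟩
  intro hV
  have hit : ∀ (i : ℕ) (v : V), ∃ r w : V, v = π r * w ^ ℓ ^ i := by
    intro i
    induction i with
    | zero =>
      intro v
      exact ⟨1, v, by rw [map_one, one_mul, pow_zero, pow_one]⟩
    | succ i ih =>
      intro v
      obtain ⟨r, w, hrw⟩ := ih v
      obtain ⟨x, hx⟩ := h4 ℓ w (fun s hs => hV s hs w)
      refine ⟨r * w ^ ℓ ^ i, x⁻¹, ?_⟩
      have e : w = π w * x⁻¹ ^ ℓ := by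
        rw [hx, inv_pow, mul_inv_cancel_right]
      calc v = π r * w ^ ℓ ^ i := hrw
        _ = π r * (π w * x⁻¹ ^ ℓ) ^ ℓ ^ i := by rw [← e]
        _ = π (r * w ^ ℓ ^ i) * x⁻¹ ^ ℓ ^ (i + 1) := by
            rw [mul_pow, map_mul, map_pow, ← pow_mul, ← pow_succ', mul_assoc]
  rw [Subgroup.eq_bot_iff_forall]
  intro s hs
  apply MulEquiv.ext
  intro v
  obtain ⟨r, w, hrw⟩ := hit a v
  rw [hexp, mul_one] at hrw
  rw [hrw, (h1 r s hs).1]
  rfl

end Pool.Agent.PP.T8.H92
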